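import Mathlib

/-!
# MP_5c7113_al, Q2: the extended permutohedra `Reg e` of finite strict orderings satisfy a
nontrivial ortholattice identity

The identity `a ∧ (a' ∨ (b ∧ (a' ∨ b'))) = 0` holds in the ortholattice `Reg e` for every finite
strict ordering `e` (more generally for every strict ordering with finite intervals), but it fails in
the six-element ortholattice `MO₂`.

Proof for `Reg e`: let `u` be the interior of `a ∩ (a' ∨ (b ∧ (a' ∨ b')))` and let `(x, y)` be a
pair in `u` which is minimal for the inclusion of intervals. As `u` is open, a chain from `x` to `y`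
has a step in `u`, and by minimality this is only possible for the chain with one step. Hence `(x, y)`
lies in every set `c ⊆ e` with `(x, y) ∈ cl c`. Apply this to the sets whose closures are
`a' ∨ (b ∧ (a' ∨ b'))`, `a'`, `b ∧ (a' ∨ b')`, `a' ∨ b'` and `b'`.
-/

set_option autoImplicit false

universe u

namespace Pool.Agent.Results.MP_5c7113_al.OrtholatticeIdentity

/-- Ortholattices: bounded lattices with an orthocomplementation `x ↦ perp x`, that is, an
order-reversing involution such that `perp x` is a complement of `x`. -/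
class Ortholattice (L : Type u) extends Lattice L, BoundedOrder L where
  /-- The orthocomplement. -/
  perp : L → L
  perp_perp : ∀ x, perp (perp x) = x
  perp_anti : ∀ x y, x ≤ y → perp y ≤ perp x
  inf_perp : ∀ x, x ⊓ perp x = ⊥
  sup_perp : ∀ x, x ⊔ perp x = ⊤

/-- Ortholattice terms in the variables `x₀, x₁, x₂, …`. -/
inductive OTerm : Type
  | var : ℕ → OTerm
  | join : OTerm → OTerm → OTerm
  | meet : OTerm → OTerm → OTerm
  | perp : OTerm → OTerm
  | zero : OTerm
  | one : OTerm

/-- The value of an ortholattice term under an assignment of elements of `L` to the variables. -/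
def OTerm.eval {L : Type u} [Ortholattice L] (v : ℕ → L) : OTerm → L
  | .var n => v n
  | .join a b => a.eval v ⊔ b.eval v
  | .meet a b => a.eval v ⊓ b.eval v
  | .perp a => Ortholattice.perp (a.eval v)
  | .zero => ⊥
  | .one => ⊤

/-- A strict ordering on `E`: an irreflexive and transitive set of ordered pairs. -/
structure StrictOrdering (E : Type u) where
  /-- The set of pairs. -/
  rel : Set (E × E)
  irrefl : ∀ x, (x, x) ∉ rel
  trans : ∀ x y z, (x, y) ∈ rel → (y, z) ∈ rel → (x, z) ∈ rel

section Reg

variable {E : Type u}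

/-- The transitive closure of a set of pairs. -/
def cl (a : Set (E × E)) : Set (E × E) :=
  {p | Relation.TransGen (fun x y => (x, y) ∈ a) p.1 p.2}

/-- The interior of `a` in the strict ordering `e`: the complement in `e` of the transitive closure
of the complement of `a` in `e`. It is the largest open subset of `a`, see `interior_isGreatest`. -/
def interior (e : StrictOrdering E) (a : Set (E × E)) : Set (E × E) := e.rel \ cl (e.rel \ a)

/-- The regular closed subsets of `e`: the sets `a` with `a = cl (interior a)`. -/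
def Reg (e : StrictOrdering E) : Type u := {a : Set (E × E) // a = cl (interior e a)}

theorem tlift {α β : Type*} {r : α → α → Prop} {s : β → β → Prop} (f : α → β)
    (h : ∀ a b, r a b → s (f a) (f b)) {x y : α} (hxy : Relation.TransGen r x y) :
    Relation.TransGen s (f x) (f y) := by
  induction hxy with
  | single h1 => exact Relation.TransGen.single (h _ _ h1)
  | tail _ h2 ih => exact Relation.TransGen.tail ih (h _ _ h2)

theorem sub_cl (a : Set (E × E)) : a ⊆ cl a := fun _ hp => Relation.TransGen.single hp

theorem cl_mono {a b : Set (E × E)} (h : a ⊆ b) : cl a ⊆ cl b :=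
  fun _ hp => tlift id (fun _ _ hxy => h hxy) hp

theorem cl_idem (a : Set (E × E)) : cl (cl a) = cl a := by
  apply Set.Subset.antisymm
  · rintro ⟨x, y⟩ hp
    have hp2 : Relation.TransGen (fun x y => (x, y) ∈ cl a) x y := hp
    clear hp
    show Relation.TransGen (fun x y => (x, y) ∈ a) x y
    induction hp2 with
    | single h1 => exact h1
    | tail _ h2 ih => exact Relation.TransGen.trans ih h2
  · exact sub_cl _

theorem cl_trans {a : Set (E × E)} {x y z : E} (h1 : (x, y) ∈ cl a) (h2 : (y, z) ∈ cl a) :
    (x, z) ∈ cl a := Relation.TransGen.trans h1 h2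

theorem cl_sub {a b : Set (E × E)} (h : a ⊆ b)
    (hb : ∀ x y z, (x, y) ∈ b → (y, z) ∈ b → (x, z) ∈ b) : cl a ⊆ b := by
  rintro ⟨x, y⟩ hp
  have hp2 : Relation.TransGen (fun x y => (x, y) ∈ a) x y := hp
  clear hp
  induction hp2 with
  | single h1 => exact h h1
  | tail _ h2 ih => exact hb _ _ _ ih (h h2)

theorem cl_sub_rel (e : StrictOrdering E) {a : Set (E × E)} (h : a ⊆ e.rel) : cl a ⊆ e.rel :=
  cl_sub h e.trans

variable (e : StrictOrdering E)

theorem interior_sub (a : Set (E × E)) : interior e a ⊆ a := by
  intro p hp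
  by_contra h
  exact hp.2 (sub_cl _ ⟨hp.1, h⟩)

theorem interior_sub_rel (a : Set (E × E)) : interior e a ⊆ e.rel := fun _ hp => hp.1

theorem interior_mono {a b : Set (E × E)} (h : a ⊆ b) : interior e a ⊆ interior e b := by
  intro p hp
  have h1 : e.rel \ b ⊆ e.rel \ a := fun q hq => ⟨hq.1, fun h3 => hq.2 (h h3)⟩
  exact ⟨hp.1, fun h2 => hp.2 (cl_mono h1 h2)⟩

theorem rel_diff_interior (a : Set (E × E)) : e.rel \ interior e a = cl (e.rel \ a) := by
  apply Set.Subset.antisymm
  · intro p hp
    by_contra h
    exact hp.2 ⟨hp.1, h⟩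
  · intro p hp
    exact ⟨cl_sub_rel e (fun _ hq => hq.1) hp, fun h => h.2 hp⟩

theorem interior_idem (a : Set (E × E)) : interior e (interior e a) = interior e a := by
  conv_lhs => unfold interior
  rw [show e.rel \ (e.rel \ cl (e.rel \ a)) = cl (e.rel \ a) from rel_diff_interior e a, cl_idem]
  rfl

/-- The interior of `a` is the largest open subset of `a`, where `b ⊆ e` is open if `e \ b` is
closed, that is, transitive. -/
theorem interior_isGreatest {a : Set (E × E)} :
    IsGreatest {b : Set (E × E) | b ⊆ e.rel ∧ b ⊆ a ∧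
      ∀ x y z, (x, y) ∈ e.rel \ b → (y, z) ∈ e.rel \ b → (x, z) ∈ e.rel \ b} (interior e a) := by
  constructor
  · refine ⟨interior_sub_rel e a, interior_sub e a, ?_⟩
    intro x y z h1 h2
    rw [rel_diff_interior] at h1 h2 ⊢
    exact cl_trans h1 h2
  · rintro b ⟨hb1, hb2, hb3⟩ p hp
    refine ⟨hb1 hp, fun h => ?_⟩
    have h2 : cl (e.rel \ a) ⊆ e.rel \ b :=
      cl_sub (fun q hq => ⟨hq.1, fun h3 => hq.2 (hb2 h3)⟩) hb3
    exact (h2 h).2 hp

theorem reg_cl_interior (a : Set (E × E)) :
    cl (interior e a) = cl (interior e (cl (interior e a))) := by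
  apply Set.Subset.antisymm
  · apply cl_mono
    conv_lhs => rw [← interior_idem]
    exact interior_mono e (sub_cl _)
  · have h := cl_mono (interior_sub e (cl (interior e a)))
    rwa [cl_idem] at h

theorem reg_cl_union {a b : Set (E × E)} (ha : a = cl (interior e a))
    (hb : b = cl (interior e b)) : cl (a ∪ b) = cl (interior e (cl (a ∪ b))) := by
  apply Set.Subset.antisymm
  · have h1 : a ∪ b ⊆ cl (interior e (cl (a ∪ b))) := by
      apply Set.union_subset
      · have h2 : cl (interior e a) ⊆ cl (interior e (cl (a ∪ b))) :=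
          cl_mono (interior_mono e (Set.subset_union_left.trans (sub_cl _)))
        rwa [← ha] at h2
      · have h2 : cl (interior e b) ⊆ cl (interior e (cl (a ∪ b))) :=
          cl_mono (interior_mono e (Set.subset_union_right.trans (sub_cl _)))
        rwa [← hb] at h2
    have h3 := cl_mono h1
    rwa [cl_idem] at h3
  · have h := cl_mono (interior_sub e (cl (a ∪ b)))
    rwa [cl_idem] at h

theorem reg_closed {a : Set (E × E)} (ha : a = cl (interior e a)) : cl a = a := by
  conv_lhs => rw [ha]
  rw [cl_idem, ← ha]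

theorem reg_sub_rel {a : Set (E × E)} (ha : a = cl (interior e a)) : a ⊆ e.rel := by
  rw [ha]
  exact cl_sub_rel e (interior_sub_rel e a)

theorem cl_empty : cl (∅ : Set (E × E)) = ∅ := by
  apply Set.Subset.antisymm
  · exact cl_sub (Set.Subset.refl _) (fun _ _ _ h => absurd h (Set.notMem_empty _))
  · exact Set.empty_subset _

theorem interior_empty : interior e (∅ : Set (E × E)) = ∅ :=
  Set.subset_empty_iff.1 (interior_sub e ∅)

theorem interior_rel : interior e e.rel = e.rel := by
  unfold interior
  rw [Set.sdiff_self, cl_empty, Set.sdiff_empty]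

theorem cl_rel : cl e.rel = e.rel :=
  Set.Subset.antisymm (cl_sub_rel e (Set.Subset.refl _)) (sub_cl _)

/-- `cl (e \ a)` is regular closed when `a` is closed. -/
theorem reg_perp {a : Set (E × E)} (ha : a = cl (interior e a)) :
    cl (e.rel \ a) = cl (interior e (cl (e.rel \ a))) := by
  have h1 : e.rel \ a = interior e (e.rel \ a) := by
    unfold interior
    rw [Set.sdiff_sdiff_cancel_left (reg_sub_rel e ha), reg_closed e ha]
  conv_lhs => rw [h1]
  rw [reg_cl_interior, ← h1]

theorem perp_perp_aux {a : Set (E × E)} (ha : a = cl (interior e a)) :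
    cl (e.rel \ cl (e.rel \ a)) = a := ha.symm

/-- The ortholattice of the regular closed subsets of `e`, ordered by inclusion, with
`a ∨ b = cl (a ∪ b)`, `a ∧ b = cl (int (a ∩ b))`, `a' = cl (e \ a)`, `0 = ∅` and `1 = e`. -/
instance : Ortholattice (Reg e) where
  le a b := a.1 ⊆ b.1
  le_refl a := Set.Subset.refl _
  le_trans a b c h1 h2 := Set.Subset.trans h1 h2
  le_antisymm a b h1 h2 := Subtype.ext (Set.Subset.antisymm h1 h2)
  sup a b := ⟨cl (a.1 ∪ b.1), reg_cl_union e a.2 b.2⟩
  inf a b := ⟨cl (interior e (a.1 ∩ b.1)), reg_cl_interior e _⟩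
  le_sup_left a b := show a.1 ⊆ cl (a.1 ∪ b.1) from Set.subset_union_left.trans (sub_cl _)
  le_sup_right a b := show b.1 ⊆ cl (a.1 ∪ b.1) from Set.subset_union_right.trans (sub_cl _)
  sup_le a b c hac hbc := show cl (a.1 ∪ b.1) ⊆ c.1 by
    have h := cl_mono (Set.union_subset (show a.1 ⊆ c.1 from hac) (show b.1 ⊆ c.1 from hbc))
    rwa [reg_closed e c.2] at h
  inf_le_left a b := show cl (interior e (a.1 ∩ b.1)) ⊆ a.1 by
    have h := cl_mono ((interior_sub e (a.1 ∩ b.1)).trans Set.inter_subset_left)
    rwa [reg_closed e a.2] at h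
  inf_le_right a b := show cl (interior e (a.1 ∩ b.1)) ⊆ b.1 by
    have h := cl_mono ((interior_sub e (a.1 ∩ b.1)).trans Set.inter_subset_right)
    rwa [reg_closed e b.2] at h
  le_inf a b c hab hac := show a.1 ⊆ cl (interior e (b.1 ∩ c.1)) by
    have h := cl_mono (interior_mono e
      (Set.subset_inter (show a.1 ⊆ b.1 from hab) (show a.1 ⊆ c.1 from hac)))
    rwa [← a.2] at h
  top := ⟨e.rel, by rw [interior_rel, cl_rel]⟩
  bot := ⟨∅, by rw [interior_empty, cl_empty]⟩
  le_top a := reg_sub_rel e a.2
  bot_le a := Set.empty_subset _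
  perp a := ⟨cl (e.rel \ a.1), reg_perp e a.2⟩
  perp_perp a := Subtype.ext (perp_perp_aux e a.2)
  perp_anti a b h := show cl (e.rel \ b.1) ⊆ cl (e.rel \ a.1) by
    have h1 : e.rel \ b.1 ⊆ e.rel \ a.1 := fun p hp => ⟨hp.1, fun h2 => hp.2 (h h2)⟩
    exact cl_mono h1
  inf_perp a := Subtype.ext <| show cl (interior e (a.1 ∩ cl (e.rel \ a.1))) = ∅ by
    have h : interior e (a.1 ∩ cl (e.rel \ a.1)) = ∅ := by
      apply Set.subset_empty_iff.1
      intro p hp
      have h1 : p ∈ cl (e.rel \ a.1) := (interior_sub e _ hp).2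
      have h2 : e.rel \ a.1 ⊆ e.rel \ (a.1 ∩ cl (e.rel \ a.1)) :=
        fun q hq => ⟨hq.1, fun h2 => hq.2 h2.1⟩
      exact hp.2 (cl_mono h2 h1)
    rw [h, cl_empty]
  sup_perp a := Subtype.ext <| show cl (a.1 ∪ cl (e.rel \ a.1)) = e.rel by
    apply Set.Subset.antisymm
    · exact cl_sub_rel e (Set.union_subset (reg_sub_rel e a.2)
        (cl_sub_rel e (fun _ hq => hq.1)))
    · intro p hp
      apply sub_cl
      by_cases h : p ∈ a.1
      · exact Or.inl h
      · exact Or.inr (sub_cl _ ⟨hp, h⟩)

/-- `s = t` or `s` is below `t`. -/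
def Le (s t : E) : Prop := s = t ∨ (s, t) ∈ e.rel

theorem chain_mem {c : Set (E × E)} (hc : c ⊆ e.rel) {x y : E}
    (h : Relation.TransGen (fun s t => (s, t) ∈ c) x y) :
    Relation.TransGen (fun s t => (s, t) ∈ c ∧ Le e x s ∧ Le e t y) x y := by
  have hx : ∀ {b}, Relation.TransGen (fun s t => (s, t) ∈ c) x b → (x, b) ∈ e.rel := by
    intro b hb
    exact cl_sub_rel e hc (show (x, b) ∈ cl c from hb)
  induction h with
  | single h1 => exact Relation.TransGen.single ⟨h1, Or.inl rfl, Or.inl rfl⟩
  | tail h1 h2 ih =>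
    refine Relation.TransGen.tail (tlift id ?_ ih) ⟨h2, Or.inr (hx h1), Or.inl rfl⟩
    rintro s t ⟨h3, h4, h5⟩
    refine ⟨h3, h4, Or.inr ?_⟩
    rcases h5 with h5 | h5
    · rw [h5]; exact hc h2
    · exact e.trans _ _ _ h5 (hc h2)

/-- A pair of `u` which is minimal for the inclusion of intervals. -/
def MinPair (u : Set (E × E)) (x y : E) : Prop :=
  (x, y) ∈ u ∧ ∀ s t, (s, t) ∈ u → Le e x s → Le e t y → s = x ∧ t = y

/-- If `u` is open and `(x, y)` is a minimal pair of `u`, then `(x, y)` lies in all sets of pairs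
whose transitive closure contains `(x, y)`. -/
theorem MinPair.mem {w : Set (E × E)} {x y : E} (h : MinPair e (interior e w) x y)
    {c : Set (E × E)} (hc : c ⊆ e.rel) (hxy : (x, y) ∈ cl c) : (x, y) ∈ c := by
  by_contra hn
  have h1 := chain_mem e hc hxy
  have h2 : (x, y) ∈ cl (cl (e.rel \ w)) := by
    refine tlift id ?_ h1
    rintro s t ⟨h3, h4, h5⟩
    by_contra h6
    have h7 : (s, t) ∈ interior e w := ⟨hc h3, h6⟩
    obtain ⟨rfl, rfl⟩ := h.2 s t h7 h4 h5
    exact hn h3
  rw [cl_idem] at h2
  exact h.1.2 h2

/-- Open intervals. -/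
def Ioo' (x y : E) : Set E := {z | (x, z) ∈ e.rel ∧ (z, y) ∈ e.rel}

theorem exists_minPair (hfin : ∀ x y, (Ioo' e x y).Finite) {u : Set (E × E)} (hu : u ⊆ e.rel)
    (hne : u.Nonempty) : ∃ x y, MinPair e u x y := by
  obtain ⟨p, hp⟩ := hne
  have key : ∀ n : ℕ, ∀ x y, (x, y) ∈ u → (Ioo' e x y).ncard ≤ n → ∃ x y, MinPair e u x y := by
    intro n
    induction n with
    | zero =>
      intro x y hxy hn
      refine ⟨x, y, hxy, ?_⟩
      intro s t hst h1 h2
      have h0 : Ioo' e x y = ∅ := by
        rw [← Set.ncard_eq_zero (hfin x y)]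
        exact Nat.le_zero.1 hn
      have hst' := hu hst
      constructor
      · rcases h1 with h1 | h1
        · exact h1.symm
        · exfalso
          have : s ∈ Ioo' e x y := by
            refine ⟨h1, ?_⟩
            rcases h2 with h2 | h2
            · rwa [h2] at hst'
            · exact e.trans _ _ _ hst' h2
          rw [h0] at this
          exact this
      · rcases h2 with h2 | h2
        · exact h2
        · exfalso
          have : t ∈ Ioo' e x y := by
            refine ⟨?_, h2⟩
            rcases h1 with h1 | h1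
            · rwa [h1]
            · exact e.trans _ _ _ h1 hst'
          rw [h0] at this
          exact this
    | succ n ih =>
      intro x y hxy hn
      by_cases hmin : MinPair e u x y
      · exact ⟨x, y, hmin⟩
      · have : ∃ s t, (s, t) ∈ u ∧ Le e x s ∧ Le e t y ∧ ¬ (s = x ∧ t = y) := by
          by_contra hcon
          apply hmin
          refine ⟨hxy, fun s t hst h1 h2 => ?_⟩
          by_contra h3
          exact hcon ⟨s, t, hst, h1, h2, h3⟩
        obtain ⟨s, t, hst, h1, h2, h3⟩ := this
        have hst' := hu hst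
        refine ih s t hst ?_
        have hlt : (Ioo' e s t).ncard < (Ioo' e x y).ncard := by
          apply Set.ncard_lt_ncard _ (hfin x y)
          have hsub : Ioo' e s t ⊆ Ioo' e x y := by
            rintro z ⟨hz1, hz2⟩
            constructor
            · rcases h1 with h1 | h1
              · rwa [h1]
              · exact e.trans _ _ _ h1 hz1
            · rcases h2 with h2 | h2
              · rwa [← h2]
              · exact e.trans _ _ _ hz2 h2
          refine ⟨hsub, fun hsup => ?_⟩
          rcases h1 with h1 | h1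
          · rcases h2 with h2 | h2
            · exact h3 ⟨h1.symm, h2⟩
            · have : t ∈ Ioo' e x y := ⟨by rwa [h1], h2⟩
              exact e.irrefl t (hsup this).2
          · have : s ∈ Ioo' e x y := by
              refine ⟨h1, ?_⟩
              rcases h2 with h2 | h2
              · rwa [← h2]
              · exact e.trans _ _ _ hst' h2
            exact e.irrefl s (hsup this).1
        omega
  exact key _ p.1 p.2 hp le_rfl

/-- The identity in `Reg e`, for all strict orderings with finite intervals. -/
theorem reg_identity (hfin : ∀ x y, (Ioo' e x y).Finite) (a b : Reg e) :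
    a ⊓ (Ortholattice.perp a ⊔ (b ⊓ (Ortholattice.perp a ⊔ Ortholattice.perp b))) = ⊥ := by
  apply Subtype.ext
  show cl (interior e (a.1 ∩ cl (cl (e.rel \ a.1) ∪
    cl (interior e (b.1 ∩ cl (cl (e.rel \ a.1) ∪ cl (e.rel \ b.1))))))) = ∅
  set A := e.rel \ a.1 with hA
  set B := e.rel \ b.1 with hB
  set V := interior e (b.1 ∩ cl (cl A ∪ cl B)) with hV
  set U := interior e (a.1 ∩ cl (cl A ∪ cl V)) with hU
  have hA' : A ⊆ e.rel := fun _ h => h.1
  have hB' : B ⊆ e.rel := fun _ h => h.1
  have hV' : V ⊆ e.rel := fun _ h => h.1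
  have hU' : U ⊆ e.rel := fun _ h => h.1
  have h0 : U = ∅ := by
    by_contra hne
    obtain ⟨x, y, hmin⟩ := exists_minPair e hfin hU' (Set.nonempty_iff_ne_empty.2 hne)
    have h1 : (x, y) ∈ a.1 ∩ cl (cl A ∪ cl V) := interior_sub e _ hmin.1
    have h2 : (x, y) ∈ cl A ∪ cl V :=
      hmin.mem e (Set.union_subset (cl_sub_rel e hA') (cl_sub_rel e hV')) h1.2
    rcases h2 with h2 | h2
    · exact (hmin.mem e hA' h2).2 h1.1
    · have h3 : (x, y) ∈ V := hmin.mem e hV' h2
      have h4 : (x, y) ∈ b.1 ∩ cl (cl A ∪ cl B) := interior_sub e _ h3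
      have h5 : (x, y) ∈ cl A ∪ cl B :=
        hmin.mem e (Set.union_subset (cl_sub_rel e hA') (cl_sub_rel e hB')) h4.2
      rcases h5 with h5 | h5
      · exact (hmin.mem e hA' h5).2 h1.1
      · exact (hmin.mem e hB' h5).2 h4.1
  rw [h0, cl_empty]

end Reg

/-! ### The ortholattice `MO₂` -/

/-- The six-element ortholattice `MO₂ = {0, 1, a, a', b, b'}` with four pairwise incomparable
elements `a, a', b, b'` between `0` and `1`. -/
inductive MO2 : Type
  | zero | one | a | a' | b | b'
  deriving DecidableEq

namespace MO2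

instance : Fintype MO2 :=
  ⟨{zero, one, a, a', b, b'}, fun x => by cases x <;> simp⟩

/-- The order relation. -/
def le (x y : MO2) : Bool := x = zero || y = one || x = y

/-- The join. -/
def join (x y : MO2) : MO2 := if le x y then y else if le y x then x else one

/-- The meet. -/
def meet (x y : MO2) : MO2 := if le x y then x else if le y x then y else zero

/-- The orthocomplement. -/
def compl : MO2 → MO2
  | zero => one
  | one => zero
  | a => a'
  | a' => a
  | b => b'
  | b' => b

instance : Ortholattice MO2 where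
  le x y := le x y = true
  le_refl := by decide
  le_trans := by decide
  le_antisymm := by decide
  sup := join
  inf := meet
  le_sup_left := by decide
  le_sup_right := by decide
  sup_le := by decide
  inf_le_left := by decide
  inf_le_right := by decide
  le_inf := by decide
  top := one
  bot := zero
  le_top := by decide
  bot_le := by decide
  perp := compl
  perp_perp := by decide
  perp_anti := by decide
  inf_perp := by decide
  sup_perp := by decide

end MO2

/-- The left-hand side `x₀ ∧ (x₀' ∨ (x₁ ∧ (x₀' ∨ x₁')))` of the identity. -/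
def lhs : OTerm :=
  .meet (.var 0) (.join (.perp (.var 0))
    (.meet (.var 1) (.join (.perp (.var 0)) (.perp (.var 1)))))

/-- **MP_5c7113_al, Q2: there is a nontrivial ortholattice identity.** There are ortholattice terms
`s, t` (namely `s = x₀ ∧ (x₀' ∨ (x₁ ∧ (x₀' ∨ x₁')))` and `t = 0`) such that the identity `s = t`
holds in the ortholattice `Reg e` for every strict ordering `e` on a finite set, and more generally
for every strict ordering `e` with finite intervals, and fails in some (finite) ortholattice. -/
theorem result : ∃ s t : OTerm,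
    (∀ (E : Type u) [Finite E] (e : StrictOrdering E) (v : ℕ → Reg e), s.eval v = t.eval v) ∧
    (∀ (E : Type u) (e : StrictOrdering E),
      (∀ x y, {z | (x, z) ∈ e.rel ∧ (z, y) ∈ e.rel}.Finite) →
        ∀ v : ℕ → Reg e, s.eval v = t.eval v) ∧
    ∃ (L : Type) (_ : Finite L) (_ : Ortholattice L) (v : ℕ → L), s.eval v ≠ t.eval v := by
  refine ⟨lhs, .zero, ?_, ?_, MO2, inferInstance, inferInstance,
    fun n => if n = 0 then MO2.a else MO2.b, ?_⟩
  · intro E _ e v
    exact reg_identity e (fun x y => Set.toFinite _) (v 0) (v 1)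
  · intro E e hfin v
    exact reg_identity e hfin (v 0) (v 1)
  · intro h
    have h2 : (lhs.eval (fun n => if n = 0 then MO2.a else MO2.b) : MO2) = MO2.a := rfl
    rw [h2] at h
    exact absurd (h : MO2.a = MO2.zero) (by decide)

end Pool.Agent.Results.MP_5c7113_al.OrtholatticeIdentity
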